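import Pool.Agent.TH214.Q.Main
import Pool.Agent.TH214.U.Abs

/-! Quotients of products of surfaces by finite abelian groups: smooth projective models of the field
of invariants on which given finite sets of products of invariants of the factors are monomials. The
proof is the one of `Pool.Agent.TH214.Q.quotA`. -/

set_option autoImplicit false
set_option linter.unusedVariables false
set_option linter.unusedSectionVars false

universe u

open Polynomial AlgebraicGeometry CategoryTheory TensorProduct Pool.Agent.W558.WT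
  Pool.Agent.H920R2 Pool.Agent.W410.WT Pool.Agent.W558 Pool.Agent.TH214.Q

namespace Pool.Agent.Q83.TV

section main

variable (hall : WTPack.{u}) (hs0 : WSPack.{u}) (hfam : WT_fam.{u})
  (p : ℕ) [Fact p.Prime] (k : Type u) [Field k] [PerfectField k] [CharP k p] (n : ℕ)
  (K : Fin n → Type u) [∀ i, Field (K i)] [∀ i, Algebra k (K i)]
  (E : Type u) [Field E] [Algebra k E] (e : ∀ i, K i →ₐ[k] E) (hΦ : Function.Injective (Phi e))
  {G : Type} [CommGroup G] [Finite G] (sK : ∀ i, G →* (K i ≃ₐ[k] K i)) (τ : G →* (E ≃ₐ[k] E))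

include hall hs0 hfam hΦ

/-- Models of the field of invariants. -/
theorem fieldA {m : ℕ} {ζ : k} (hζ : IsPrimitiveRoot ζ m) (hm0 : 0 < m)
    (hG : ∀ g : G, g ^ (p * m) = 1)
    (hcyc : ∀ i (g g' : G), g ^ p = 1 → g' ^ p = 1 → sK i g ≠ 1 → ∃ a : ℕ, sK i g' = sK i g ^ a)
    (h2 : ∀ i, Algebra.trdeg k (fixF (Set.range (sK i))) = 2)
    (hM : ∀ i, HasModel k (fixF (Set.range (sK i))))
    (hτe : ∀ g i (y : K i), τ g (e i y) = e i (sK i g y))
    (hgenE : ∀ M : IntermediateField k E, (∀ i y, e i y ∈ M) → M = ⊤)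
    (hfin : Algebra.trdeg k E < Cardinal.aleph0)
    (S : Type) [Finite S] (c0 : S → ∀ i, fixF (Set.range (sK i))) (hc0 : ∀ b i, c0 b i ≠ 0)
    (y : S → fixF (Set.range τ)) (hy : ∀ b, (y b : E) = ∏ i, e i (c0 b i)) :
    ∃ (T I : Type) (_ : Finite T) (_ : Fintype I)
      (M : LM (⊥ : Subalgebra k (fixF (Set.range τ))) ⊤ T I) (Γ : S → I → ℤ),
      Fn M y Γ ∧ Frc M := by
  classical
  have hp : p.Prime := Fact.out
  have hm : (m : k) ≠ 0 := by
    have hm1 : NeZero m := ⟨hm0.ne'⟩
    exact (hζ.neZero').out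
  have hfG : Fintype G := Fintype.ofFinite G
  have hfS : Fintype S := Fintype.ofFinite S
  have hcE : CharP E p := charP_of_injective_algebraMap (algebraMap k E).injective p
  have hcK : ∀ i, CharP (K i) p := fun i =>
    charP_of_injective_algebraMap (algebraMap k (K i)).injective p
  -- the factors
  choose z ε hz hzgen using fun i =>
    exists_asg (sK i) p hm hG (hcyc i)
  let F : ∀ i, IntermediateField k (K i) := fun i => fixF (Set.range (sK i))
  have hF : ∀ i y, y ∈ F i ↔ ∀ g, sK i g y = y := fun i y =>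
    ⟨fun h g => h _ ⟨g, rfl⟩, fun h t ht => by obtain ⟨g, rfl⟩ := ht; exact h g⟩
  let Z : Fin n → E := fun i => e i (z i)
  let L0 : IntermediateField k E := IntermediateField.adjoin k {y | ∃ i, ∃ x ∈ F i, y = e i x}
  have hL0 : ∀ i, ∀ y ∈ F i, e i y ∈ L0 := fun i y hy =>
    IntermediateField.subset_adjoin k _ ⟨i, y, hy, rfl⟩
  have hpm : Nat.Coprime p m := by
    rw [Nat.Prime.coprime_iff_not_dvd hp]
    intro h
    exact hm ((CharP.cast_eq_zero_iff k p m).2 h)
  have hzF : ∀ i, z i ^ p - z i ∈ F i := fun i => (hF i _).2 fun g => by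
    rw [map_sub, map_pow, hz, add_pow_char, Pool.Agent.W435.WT.Gal.zc_pow]
    ring
  have hτL : ∀ y ∈ L0, ∀ g, τ g y = y := by
    intro y hy g
    have h1 : L0 ≤ fixF {τ g} := by
      rw [IntermediateField.adjoin_le_iff]
      rintro _ ⟨i, y, hy, rfl⟩
      rintro _ rfl
      rw [hτe, (hF i y).1 hy]
    exact h1 hy _ rfl
  have halg : ∀ x : E, IsAlgebraic L0 x := by
    have hM : (algebraicClosure L0 E).restrictScalars k = ⊤ := by
      refine hgenE _ fun i x => ?_
      rw [IntermediateField.mem_restrictScalars, mem_algebraicClosure_iff]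
      obtain ⟨q, hq, hqx⟩ := (alg_fix (sK i)).isAlgebraic x
      let φ : F i →+* L0 :=
        { toFun := fun r => ⟨e i (r : K i), hL0 i _ r.2⟩
          map_one' := Subtype.ext (map_one (e i))
          map_mul' := fun a b => Subtype.ext (map_mul (e i) _ _)
          map_zero' := Subtype.ext (map_zero (e i))
          map_add' := fun a b => Subtype.ext (map_add (e i) _ _) }
      refine ⟨q.map φ, (Polynomial.map_ne_zero_iff φ.injective).2 hq, ?_⟩
      rw [aeval_def, eval₂_map]
      have h2 : (algebraMap L0 E).comp φ = (e i : K i →+* E).comp (algebraMap (F i) (K i)) :=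
        RingHom.ext fun y => rfl
      rw [h2]
      have h3 := congrArg (e i : K i →+* E) hqx
      rw [aeval_def, hom_eval₂, map_zero] at h3
      exact h3
    intro x
    have hx : x ∈ (algebraicClosure L0 E).restrictScalars k := by rw [hM]; trivial
    rw [IntermediateField.mem_restrictScalars, mem_algebraicClosure_iff] at hx
    exact hx
  have hfgen := fun (M : IntermediateField k E) => fixed_gen (ρ := sK) (τ := τ) (e := e) (p := p)
    hζ hm hτe hG L0 (fun i y hy => hL0 i y ((hF i y).2 hy)) hτL halg hgenE z ε hz hzgen M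
  -- the model of the compositum
  obtain ⟨e', φ, he', hφe, hφi, hφf⟩ := exists_L0 e hΦ F L0 rfl
  have hfR : Finite {x : k // x ^ m = 1} := finite_roots k hm0
  have hfX : Finite (XX k G m) := Pi.finite
  obtain ⟨NX, ⟨eX⟩⟩ := Finite.exists_equiv_fin (XX k G m)
  have hrF : ∀ i (χ : XX k G m), rep (sK i) p m χ ^ m ∈ F i := fun i χ =>
    (hF i _).2 (rep_pow hpm hG χ)
  let c : ∀ i, S ⊕ Fin NX → F i := fun i => Sum.elim
    (fun b => c0 b i) (fun a => ⟨rep (sK i) p m (eX.symm a) ^ m, hrF i _⟩)
  have hc0' : ∀ i b, c i b ≠ 0 := by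
    rintro i (b | a)
    · exact hc0 b i
    · intro h1
      exact pow_ne_zero m (rep_ne (sK i) p m _) (congrArg Subtype.val h1)
  let f : ∀ i, F i := fun i => ⟨z i ^ p - z i, hzF i⟩
  have hGM : GMA p k (fun i => e' i (f i))
      (fun q : Fin n × (S ⊕ Fin NX) => e' q.1 (c q.1 q.2)) :=
    hfam p k L0 n (fun i => F i) e' φ hφe hφi hφf (S ⊕ Fin NX) f c fun i =>
      gma_surf hs0 p k (F i) (h2 i) (hM i) (S ⊕ Fin NX) (f i) (c i) (hc0' i)
  -- the Kummer extension
  let Y := {χ : Fin n → XX k G m // ∀ g, τ g (ww sK e p m χ) = ww sK e p m χ}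
  have hfY : Finite Y := Subtype.finite
  obtain ⟨r1, ⟨eY⟩⟩ := Finite.exists_equiv_fin Y
  let w : Fin r1 → E := fun l => ww sK e p m (eY.symm l).1
  have hw0 : ∀ l, w l ≠ 0 := fun l => Finset.prod_ne_zero_iff.2 fun i _ =>
    (_root_.map_ne_zero _).2 (rep_ne (sK i) p m _)
  let lam : Fin r1 → Fin n × (S ⊕ Fin NX) → ℤ := fun l q =>
    Sum.elim (fun _ => 0) (fun a => if a = eX ((eY.symm l).1 q.1) then 1 else 0) q.2
  have hwl : ∀ l, w l ^ m = ((∏ q, (e' q.1 (c q.1 q.2)) ^ lam l q : L0) : E) := by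
    intro l
    have h3 : ∏ q, (e' q.1 (c q.1 q.2)) ^ lam l q =
        ∏ i, e' i ⟨rep (sK i) p m ((eY.symm l).1 i) ^ m, hrF i _⟩ := by
      rw [Fintype.prod_prod_type]
      refine Finset.prod_congr rfl fun i _ => ?_
      rw [Fintype.prod_sum_type]
      have h4 : ∏ b : S, (e' i (c i (Sum.inl b))) ^ lam l (i, Sum.inl b) = 1 :=
        Finset.prod_eq_one fun b _ => zpow_zero _
      rw [h4, one_mul, Finset.prod_eq_single (eX ((eY.symm l).1 i))]
      · change (e' i (c i (Sum.inr (eX ((eY.symm l).1 i))))) ^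
          (if eX ((eY.symm l).1 i) = eX ((eY.symm l).1 i) then (1 : ℤ) else 0) = _
        rw [if_pos rfl, zpow_one]
        congr 1
        apply Subtype.ext
        change rep (sK i) p m (eX.symm (eX ((eY.symm l).1 i))) ^ m = _
        rw [Equiv.symm_apply_apply]
      · intro a _ ha
        change (e' i (c i (Sum.inr a))) ^
          (if a = eX ((eY.symm l).1 i) then (1 : ℤ) else 0) = 1
        rw [if_neg ha, zpow_zero]
      · intro h
        exact absurd (Finset.mem_univ _) h
    rw [h3]
    change (∏ i, e i (rep (sK i) p m ((eY.symm l).1 i))) ^ m = L0.val (∏ i, e' i _)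
    rw [map_prod, ← Finset.prod_pow]
    refine Finset.prod_congr rfl fun i _ => ?_
    change _ = ((e' i _ : L0) : E)
    rw [he', ← map_pow]
  obtain ⟨d0, htr⟩ : ∃ d0 : ℕ, Algebra.trdeg k L0 = d0 := by
    have h3 : Algebra.trdeg k L0 ≤ Algebra.trdeg k E :=
      _root_.trdeg_le_of_injective L0.val L0.val.injective
    exact Cardinal.lt_aleph0.1 (h3.trans_lt hfin)
  have hGM1 := kummer_sub p L0 htr hm hGM w hw0 lam hwl
  let L1 := IntermediateField.adjoin L0 (Set.range w)
  have hGM2 : GMA p k (fun i => algebraMap L0 L1 (e' i (f i)))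
      (fun q : Fin n × S => algebraMap L0 L1 (e' q.1 (c q.1 (Sum.inl q.2)))) :=
    hGM1.reindex id Function.injective_id (fun q : Fin n × S => (q.1, Sum.inl q.2))
  have hcL1 : CharP L1 p := charP_of_injective_algebraMap (algebraMap k L1).injective p
  have hGT := gmt_init hall hGM2
  -- the fixed field
  let KG : IntermediateField k E := fixF (Set.range τ)
  have hKG : ∀ y, y ∈ KG ↔ ∀ g, τ g y = y := fun y =>
    ⟨fun h g => h _ ⟨g, rfl⟩, fun h t ht => by obtain ⟨g, rfl⟩ := ht; exact h g⟩
  have hcKG : CharP KG p := charP_of_injective_algebraMap (algebraMap k KG).injective p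
  have hwKG : ∀ l, w l ∈ KG := fun l => (hKG _).2 (eY.symm l).2
  have hL1K : ∀ x ∈ L1, x ∈ KG := by
    intro x hx
    induction hx using IntermediateField.adjoin_induction with
    | mem x hx =>
      obtain ⟨l, rfl⟩ := hx
      exact hwKG l
    | algebraMap x => exact (hKG _).2 (hτL x x.2)
    | add x y _ _ h1 h2 => exact add_mem h1 h2
    | inv x _ h1 => exact inv_mem h1
    | mul x y _ _ h1 h2 => exact mul_mem h1 h2
  -- the Artin-Schreier generators
  let V := {c : Fin n → ZMod p // ∀ g, ∑ i, c i * ε i g = 0}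
  have hVf : Finite V := Subtype.finite
  obtain ⟨r, ⟨ev⟩⟩ := Finite.exists_equiv_fin V
  have hZ : ∀ g i, τ g (Z i) = Z i + zc p E (ε i g) := by
    intro g i
    change τ g (e i (z i)) = e i (z i) + _
    rw [hτe, hz, map_add]
    congr 1
    exact RingHom.congr_fun (RingHom.ext_zmod ((e i : K i →+* E).comp (zc p (K i))) (zc p E))
      (ε i g)
  let W : V → E := fun c => ∑ i, zc p E (c.1 i) * Z i
  have hWK : ∀ c, W c ∈ KG := by
    intro c
    rw [hKG]
    intro g
    change τ g (∑ i, zc p E (c.1 i) * Z i) = ∑ i, zc p E (c.1 i) * Z i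
    rw [map_sum]
    have h1 : ∀ i, τ g (zc p E (c.1 i) * Z i) =
        zc p E (c.1 i) * Z i + zc p E (c.1 i * ε i g) := by
      intro i
      rw [map_mul, zc_fixed, hZ, mul_add, ← map_mul]
    rw [Finset.sum_congr rfl fun i _ => h1 i, Finset.sum_add_distrib, ← map_sum, c.2 g, map_zero,
      add_zero]
  let W' : Fin r → KG := fun i => ⟨W (ev.symm i), hWK _⟩
  have hgal' : ∀ y ∈ KG, y ∈ IntermediateField.adjoin L1 (Set.range fun i => (W' i : E)) := by
    intro y hy
    let M3 := IntermediateField.adjoin L1 (Set.range fun i => (W' i : E))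
    have tE : IsScalarTower k L1 E := IsScalarTower.of_algebraMap_eq fun c => rfl
    have hM3 : ∀ x ∈ L1, x ∈ M3 := fun x hx => M3.algebraMap_mem (⟨x, hx⟩ : L1)
    have hMw3 : ∀ χ, (∀ g, τ g (ww sK e p m χ) = ww sK e p m χ) → ww sK e p m χ ∈ M3 := by
      intro χ hχ
      have h3 : ww sK e p m χ = w (eY ⟨χ, hχ⟩) := by
        change _ = ww sK e p m (eY.symm (eY ⟨χ, hχ⟩)).1
        rw [Equiv.symm_apply_apply]
      rw [h3]
      exact hM3 _ (IntermediateField.subset_adjoin L0 (Set.range w) (Set.mem_range_self _))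
    have hMu3 : ∀ c : Fin n → ZMod p, (∀ g, ∑ i, c i * ε i g = 0) →
        ∑ i, zc p E (c i) * e i (z i) ∈ M3 := by
      intro c hc
      have h3 : ∑ i, zc p E (c i) * e i (z i) = (W' (ev ⟨c, hc⟩) : E) := by
        change _ = W (ev.symm (ev ⟨c, hc⟩))
        rw [Equiv.symm_apply_apply]
      rw [h3]
      exact IntermediateField.subset_adjoin L1 (Set.range fun i => (W' i : E))
        (Set.mem_range_self _)
    have h1 := hfgen (M3.restrictScalars k)
      (fun x hx => (IntermediateField.mem_restrictScalars _).2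
        (hM3 x (L1.algebraMap_mem (⟨x, hx⟩ : L0))))
      (fun χ hχ => (IntermediateField.mem_restrictScalars _).2 (hMw3 χ hχ))
      (fun c hc => (IntermediateField.mem_restrictScalars _).2 (hMu3 c hc)) y ((hKG y).1 hy)
    exact (IntermediateField.mem_restrictScalars _).1 h1
  -- the tower
  let _ : Algebra L1 KG := RingHom.toAlgebra
    { toFun := fun x => ⟨x, hL1K x x.2⟩
      map_one' := rfl
      map_mul' := fun a b => rfl
      map_zero' := rfl
      map_add' := fun a b => rfl }
  have hLKv : ∀ y : L1, KG.val (algebraMap L1 KG y) = y := fun y => rfl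
  have tL : IsScalarTower k L1 KG := IsScalarTower.of_algebraMap_eq fun c => by
    apply Subtype.ext
    rfl
  have tL' : IsScalarTower L1 KG E := IsScalarTower.of_algebraMap_eq fun c => rfl
  have hzcK : ∀ c : ZMod p, KG.val (zc p KG c) = zc p E c := fun c =>
    congrArg (fun φ : ZMod p →+* E => φ c)
      (RingHom.ext_zmod ((KG.val : KG →+* E).comp (zc p KG)) (zc p E))
  have hvi : Function.Injective KG.val := KG.val.injective
  have hW' : ∀ l, W' l ^ p - W' l = ∑ i, zc p KG ((ev.symm l).1 i) *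
      algebraMap L1 KG (algebraMap L0 L1 (e' i (f i))) := by
    intro l
    apply hvi
    rw [map_sub, map_pow, map_sum]
    have h1 : ∀ i, KG.val (zc p KG ((ev.symm l).1 i) *
        algebraMap L1 KG (algebraMap L0 L1 (e' i (f i)))) =
        zc p E ((ev.symm l).1 i) * (Z i ^ p - Z i) := by
      intro i
      rw [map_mul, hLKv, hzcK]
      change _ * ((e' i (f i) : L0) : E) = _
      rw [he']
      change _ * e i (z i ^ p - z i) = _
      rw [map_sub, map_pow]
    rw [Finset.sum_congr rfl fun i _ => h1 i]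
    change (∑ i, zc p E ((ev.symm l).1 i) * Z i) ^ p - ∑ i, zc p E ((ev.symm l).1 i) * Z i = _
    rw [sum_pow_char, ← Finset.sum_sub_distrib]
    refine Finset.sum_congr rfl fun i _ => ?_
    rw [mul_pow, Pool.Agent.W435.WT.Gal.zc_pow]
    ring
  have hgen' : IntermediateField.adjoin L1 (Set.range W') = ⊤ := by
    let ψ : KG →ₐ[L1] E := IsScalarTower.toAlgHom L1 KG E
    rw [eq_top_iff]
    intro y _
    have h1 : ψ y ∈ (IntermediateField.adjoin L1 (Set.range W')).map ψ := by
      rw [IntermediateField.adjoin_map, ← Set.range_comp]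
      exact hgal' y y.2
    obtain ⟨y', hy', h2⟩ := h1
    have h3 : y' = y := ψ.injective h2
    rw [← h3]
    exact hy'
  obtain ⟨T, I, hT, hI, M, n', a', h', Λ', R', Γ', -, hF', hR'⟩ :=
    gmt_tower hall p k r L1 KG _ _ hGT W' (fun l => (ev.symm l).1) hW' hgen'
  have hyF : Fn M y (fun b i => ∑ j, Γ' (j, b) i) := by
    have hF2 := hF'.prod
    have h1 : y = fun b => ∏ j, algebraMap L1 KG
        (algebraMap L0 L1 (e' (j, b).1 (c (j, b).1 (Sum.inl (j, b).2)))) := by
      funext b
      apply hvi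
      rw [map_prod]
      change (y b : E) = _
      rw [hy]
      refine Finset.prod_congr rfl fun i _ => ?_
      rw [hLKv]
      change _ = ((e' i (c i (Sum.inl b)) : L0) : E)
      rw [he']
      rfl
    rw [h1]
    exact hF2
  exact ⟨T, I, hT, hI, M, _, hyF, hR'⟩

end main

end Pool.Agent.Q83.TV
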